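import Mathlib

set_option autoImplicit false

open MeasureTheory ProbabilityTheory Module Filter Topology

namespace Pool.Agent.Results.MP_2a72d7_pr.AtomAtZero

/-- The law `ν` of a real random variable is a probability measure with mean zero, unit variance
and subgaussian norm at most `L`, i.e. `E exp (x^2 / L^2) ≤ 2`. -/
structure Admissible (ν : Measure ℝ) (L : ℝ) : Prop where
  prob : IsProbabilityMeasure ν
  pos : 0 < L
  mean_int : Integrable (fun x => x) ν
  mean : ∫ x, x ∂ν = 0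
  sq_int : Integrable (fun x => x ^ 2) ν
  variance : ∫ x, x ^ 2 ∂ν = 1
  exp_int : Integrable (fun x => Real.exp (x ^ 2 / L ^ 2)) ν
  subgaussian : ∫ x, Real.exp (x ^ 2 / L ^ 2) ∂ν ≤ 2

/-- The simple tensor `x_1 ⊗ ... ⊗ x_d`, as a vector of `ℝ^(n^d)`. -/
def simpleTensor {n d : ℕ} (x : Fin d → Fin n → ℝ) (j : Fin d → Fin n) : ℝ := ∏ k, x k (j k)

/-- The `n^d × m` matrix whose columns are the tensors `X_1, ..., X_m`. -/
def tensorMatrix {n d m : ℕ} (ω : Fin m → Fin d → Fin n → ℝ) :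
    Matrix (Fin d → Fin n) (Fin m) ℝ :=
  Matrix.of fun j i => simpleTensor (ω i) j

/-- `σ_min`: the smallest (the `m`-th largest) singular value of a matrix with `m` columns. -/
noncomputable def sigmaMin {R : Type} [Fintype R] {m : ℕ} (M : Matrix R (Fin m) ℝ) : ℝ :=
  (Matrix.toEuclideanLin M).singularValues (m - 1)

/-- The law of `m` independent families of `d` independent vectors in `ℝ^n` whose coordinates are
independent with law `ν`. -/
noncomputable def sampleLaw (ν : Measure ℝ) (n d m : ℕ) :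
    Measure (Fin m → Fin d → Fin n → ℝ) :=
  Measure.pi fun _ => Measure.pi fun _ => Measure.pi fun _ => ν

theorem sigmaMin_eq_zero {n d m : ℕ} (ω : Fin m → Fin d → Fin n → ℝ) (i : Fin m) (k : Fin d)
    (h : ∀ j, ω i k j = 0) : sigmaMin (tensorMatrix ω) = 0 := by
  classical
  have hcol : ∀ j, tensorMatrix ω j i = 0 := by
    intro j
    simp only [tensorMatrix, Matrix.of_apply, simpleTensor]
    exact Finset.prod_eq_zero (Finset.mem_univ k) (h _)
  set T := Matrix.toEuclideanLin (tensorMatrix ω) with hT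
  have hninj : ¬ Function.Injective T := by
    intro hinj
    have h1 : T (EuclideanSpace.single i (1 : ℝ)) = 0 := by
      ext j
      simp [hT, Matrix.toLpLin_apply, hcol]
    have h2 : (EuclideanSpace.single i (1 : ℝ)) = 0 := hinj (by rw [h1, map_zero])
    have h3 := congrArg (fun v => v i) h2
    simp at h3
  rw [LinearMap.injective_iff_forall_lt_finrank_singularValues_pos] at hninj
  push Not at hninj
  obtain ⟨l, hl, hl0⟩ := hninj
  have hfr : finrank ℝ (EuclideanSpace ℝ (Fin m)) = m := by simp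
  rw [hfr] at hl
  unfold sigmaMin
  refine le_antisymm ?_ (LinearMap.singularValues_nonneg _ _)
  exact (LinearMap.singularValues_antitone _ (by omega : l ≤ m - 1)).trans hl0

theorem measure_zero_vec (ν : Measure ℝ) [IsProbabilityMeasure ν] (n d : ℕ) (hd : 1 ≤ d) :
    (Measure.pi fun _ : Fin d => Measure.pi fun _ : Fin n => ν)
      {y | ∀ j, y ⟨0, hd⟩ j = 0} = ν {0} ^ n := by
  have h : {y : Fin d → Fin n → ℝ | ∀ j, y ⟨0, hd⟩ j = 0} =
      Set.pi Set.univ (fun k => if k = ⟨0, hd⟩ then Set.pi Set.univ (fun _ => {(0 : ℝ)})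
        else Set.univ) := by
    ext y
    simp only [Set.mem_ofPred_eq, Set.mem_pi, Set.mem_univ, true_implies]
    constructor
    · intro hy k
      split_ifs with hk
      · intro j _
        rw [hk]; exact hy j
      · exact Set.mem_univ _
    · intro hy j
      have := hy ⟨0, hd⟩
      rw [if_pos rfl] at this
      exact this j (Set.mem_univ _)
  rw [h, Measure.pi_pi, Finset.prod_eq_single (⟨0, hd⟩ : Fin d)]
  · rw [if_pos rfl, Measure.pi_pi]
    simp
  · intro k _ hk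
    rw [if_neg hk, measure_univ]
  · intro h'; exact absurd (Finset.mem_univ _) h'

theorem prob_pos_le (ν : Measure ℝ) [IsProbabilityMeasure ν] (n d m : ℕ) (hd : 1 ≤ d) :
    sampleLaw ν n d m {ω | 0 < sigmaMin (tensorMatrix ω)} ≤ (1 - ν {0} ^ n) ^ m := by
  set B : Set (Fin d → Fin n → ℝ) := {y | ∀ j, y ⟨0, hd⟩ j = 0} with hB
  have hBm : MeasurableSet B := by
    rw [hB]
    have : {y : Fin d → Fin n → ℝ | ∀ j, y ⟨0, hd⟩ j = 0} =
        ⋂ j, (fun y : Fin d → Fin n → ℝ => y ⟨0, hd⟩ j) ⁻¹' {0} := by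
      ext y; simp
    rw [this]
    refine MeasurableSet.iInter fun j => ?_
    exact (by fun_prop : Measurable (fun y : Fin d → Fin n → ℝ => y ⟨0, hd⟩ j))
      (measurableSet_singleton 0)
  have hsub : {ω : Fin m → Fin d → Fin n → ℝ | 0 < sigmaMin (tensorMatrix ω)} ⊆
      Set.pi Set.univ (fun _ => Bᶜ) := by
    intro ω hω i _ hi
    have := sigmaMin_eq_zero ω i ⟨0, hd⟩ hi
    rw [Set.mem_ofPred_eq, this] at hω
    exact lt_irrefl _ hω
  refine (measure_mono hsub).trans ?_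
  unfold sampleLaw
  rw [Measure.pi_pi, Finset.prod_const, Finset.card_univ, Fintype.card_fin,
    prob_compl_eq_one_sub hBm, measure_zero_vec ν n d hd]

theorem real_bound (q : ℝ) (hq0 : 0 ≤ q) (hq1 : q ≤ 1) (n m : ℕ) :
    (1 - q ^ n) ^ m ≤ Real.exp (-(m * q ^ n)) := by
  have h1 : 1 - q ^ n ≤ Real.exp (-(q ^ n)) := by
    have := Real.add_one_le_exp (-(q ^ n))
    linarith
  have h0 : 0 ≤ 1 - q ^ n := by
    have := pow_le_one₀ hq0 hq1 (n := n)
    linarith
  calc (1 - q ^ n) ^ m ≤ (Real.exp (-(q ^ n))) ^ m := pow_le_pow_left₀ h0 h1 m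
    _ = Real.exp (-(m * q ^ n)) := by rw [← Real.exp_nat_mul]; ring_nf

/-- growth: `⌊(1-ε) n^(d n)⌋ q^n → ∞` when `d n ≥ c n`. -/
theorem growth (ε : ℝ) (hε : 0 < 1 - ε) (q : ℝ) (hq : 0 < q) (hq1 : q ≤ 1) (c : ℝ) (hc : 0 < c)
    (d : ℕ → ℕ) (hd : ∀ᶠ n : ℕ in atTop, c * n ≤ d n) :
    Tendsto (fun n : ℕ => (⌊(1 - ε) * (n : ℝ) ^ (d n)⌋₊ : ℝ) * q ^ n) atTop atTop := by
  have t1 : Tendsto (fun n : ℕ => (n : ℝ) ^ c) atTop atTop :=
    (tendsto_rpow_atTop hc).comp tendsto_natCast_atTop_atTop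
  have t3 : Tendsto (fun n : ℕ => (1 - ε) * (2 : ℝ) ^ n - 1) atTop atTop := by
    refine tendsto_atTop_add_const_right _ (-1) ?_
    exact (tendsto_pow_atTop_atTop_of_one_lt (by norm_num : (1 : ℝ) < 2)).const_mul_atTop hε
  refine tendsto_atTop_mono' atTop ?_ t3
  filter_upwards [eventually_ge_atTop 1, t1.eventually_ge_atTop (2 * (1 / q)), hd] with n h1 h2 h3
  have hn1 : (1 : ℝ) ≤ n := by exact_mod_cast h1
  have hn0 : (0 : ℝ) < n := by linarith
  have hpow : (2 * (1 / q)) ^ n ≤ (n : ℝ) ^ (d n) := by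
    calc (2 * (1 / q)) ^ n ≤ ((n : ℝ) ^ c) ^ n :=
          pow_le_pow_left₀ (by positivity) h2 n
      _ = (n : ℝ) ^ (c * n) := by rw [← Real.rpow_natCast, ← Real.rpow_mul hn0.le]
      _ ≤ (n : ℝ) ^ ((d n : ℕ) : ℝ) := Real.rpow_le_rpow_of_exponent_le hn1 h3
      _ = (n : ℝ) ^ (d n) := Real.rpow_natCast _ _
  have hmul : (2 : ℝ) ^ n ≤ (n : ℝ) ^ (d n) * q ^ n := by
    calc (2 : ℝ) ^ n = (2 * (1 / q)) ^ n * q ^ n := by
          rw [← mul_pow]; congr 1; field_simp
      _ ≤ (n : ℝ) ^ (d n) * q ^ n := mul_le_mul_of_nonneg_right hpow (by positivity)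
  have hfl : (1 - ε) * (n : ℝ) ^ (d n) - 1 ≤ (⌊(1 - ε) * (n : ℝ) ^ (d n)⌋₊ : ℝ) :=
    (Nat.sub_one_lt_floor _).le
  have hqn : q ^ n ≤ 1 := pow_le_one₀ hq.le hq1
  have hqn0 : 0 < q ^ n := by positivity
  calc (1 - ε) * 2 ^ n - 1 ≤ (1 - ε) * ((n : ℝ) ^ (d n) * q ^ n) - q ^ n := by
        have := mul_le_mul_of_nonneg_left hmul hε.le
        linarith
    _ = ((1 - ε) * (n : ℝ) ^ (d n) - 1) * q ^ n := by ring
    _ ≤ _ := mul_le_mul_of_nonneg_right hfl hqn0.le

theorem prob_tendsto (ν : Measure ℝ) [IsProbabilityMeasure ν] (h0 : 0 < ν {0}) (ε : ℝ)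
    (hε : ε < 1) (c : ℝ) (hc : 0 < c) (d : ℕ → ℕ) (hd1 : ∀ n, 1 ≤ d n)
    (hd : ∀ᶠ n : ℕ in atTop, c * n ≤ d n) :
    Tendsto (fun n : ℕ => sampleLaw ν n (d n) ⌊(1 - ε) * (n : ℝ) ^ (d n)⌋₊
      {ω | 0 < sigmaMin (tensorMatrix ω)}) atTop (𝓝 0) := by
  set q : ℝ := (ν {0}).toReal with hqdef
  have hνfin : ν {0} ≠ ⊤ := measure_ne_top ν _
  have hq : 0 < q := ENNReal.toReal_pos h0.ne' hνfin
  have hq1 : q ≤ 1 := by
    have : ν {0} ≤ 1 := prob_le_one
    have := ENNReal.toReal_mono ENNReal.one_ne_top this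
    simpa using this
  have hνq : ν {0} = ENNReal.ofReal q := (ENNReal.ofReal_toReal hνfin).symm
  have hb : ∀ n : ℕ, sampleLaw ν n (d n) ⌊(1 - ε) * (n : ℝ) ^ (d n)⌋₊
      {ω | 0 < sigmaMin (tensorMatrix ω)} ≤
      ENNReal.ofReal (Real.exp (-((⌊(1 - ε) * (n : ℝ) ^ (d n)⌋₊ : ℝ) * q ^ n))) := by
    intro n
    refine (prob_pos_le ν n (d n) _ (hd1 n)).trans ?_
    have hqn1 : q ^ n ≤ 1 := pow_le_one₀ hq.le hq1
    rw [hνq, ← ENNReal.ofReal_pow hq.le, ← ENNReal.ofReal_one,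
      ← ENNReal.ofReal_sub _ (by positivity), ← ENNReal.ofReal_pow (by linarith)]
    exact ENNReal.ofReal_le_ofReal (real_bound q hq.le hq1 n _)
  have hlim : Tendsto (fun n : ℕ =>
      ENNReal.ofReal (Real.exp (-((⌊(1 - ε) * (n : ℝ) ^ (d n)⌋₊ : ℝ) * q ^ n)))) atTop (𝓝 0) := by
    have h1 := growth ε (by linarith) q hq hq1 c hc d hd
    have h2 := Real.tendsto_exp_neg_atTop_nhds_zero.comp h1
    have h3 := (ENNReal.continuous_ofReal.tendsto 0).comp h2
    rw [ENNReal.ofReal_zero] at h3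
    exact h3
  exact tendsto_of_tendsto_of_tendsto_of_le_of_le tendsto_const_nhds hlim
    (fun n => zero_le) hb

/-- The law `1/2 δ_0 + 1/4 δ_{√2} + 1/4 δ_{-√2}`. -/
noncomputable def sparseLaw : Measure ℝ :=
  (ENNReal.ofReal (1 / 2)) • Measure.dirac 0 + ((ENNReal.ofReal (1 / 4)) • Measure.dirac (√2) +
    (ENNReal.ofReal (1 / 4)) • Measure.dirac (-√2))

theorem integrable_sparse (f : ℝ → ℝ) (hf : Measurable f) : Integrable f sparseLaw := by
  unfold sparseLaw
  have h : ∀ a : ℝ, Integrable f (Measure.dirac a) := fun a => integrable_dirac (by simp)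
  exact ((h 0).smul_measure ENNReal.ofReal_ne_top).add_measure
    (((h _).smul_measure ENNReal.ofReal_ne_top).add_measure
      ((h _).smul_measure ENNReal.ofReal_ne_top))

theorem integral_sparse (f : ℝ → ℝ) (hf : Measurable f) :
    ∫ x, f x ∂sparseLaw = 1 / 2 * f 0 + (1 / 4 * f (√2) + 1 / 4 * f (-√2)) := by
  unfold sparseLaw
  have h : ∀ a : ℝ, Integrable f (Measure.dirac a) := fun a => integrable_dirac (by simp)
  rw [integral_add_measure ((h 0).smul_measure ENNReal.ofReal_ne_top)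
    (((h _).smul_measure ENNReal.ofReal_ne_top).add_measure
      ((h _).smul_measure ENNReal.ofReal_ne_top)),
    integral_add_measure ((h _).smul_measure ENNReal.ofReal_ne_top)
      ((h _).smul_measure ENNReal.ofReal_ne_top)]
  simp only [integral_smul_measure, integral_dirac, smul_eq_mul]
  rw [ENNReal.toReal_ofReal (by norm_num), ENNReal.toReal_ofReal (by norm_num)]

theorem sparse_admissible : Admissible sparseLaw 2 := by
  have h2 : (√2) ^ 2 = (2 : ℝ) := Real.sq_sqrt (by norm_num)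
  refine ⟨⟨?_⟩, by norm_num, integrable_sparse _ measurable_id, ?_,
    integrable_sparse _ (by fun_prop), ?_, integrable_sparse _ (by fun_prop), ?_⟩
  · unfold sparseLaw
    simp only [Measure.coe_add, Measure.coe_smul, Pi.add_apply, Pi.smul_apply, measure_univ,
      smul_eq_mul, mul_one]
    rw [← ENNReal.ofReal_add (by norm_num) (by norm_num),
      ← ENNReal.ofReal_add (by norm_num) (by norm_num)]
    norm_num
  · have h := integral_sparse (fun x => x) measurable_id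
    rw [h]; ring
  · rw [integral_sparse _ (by fun_prop)]
    rw [neg_sq, h2]; norm_num
  · rw [integral_sparse _ (by fun_prop)]
    rw [neg_sq, h2]
    have he : Real.exp (2 / 2 ^ 2) ≤ 3 := by
      have h3 : Real.exp (2 / 2 ^ 2) ≤ Real.exp 1 := Real.exp_le_exp.2 (by norm_num)
      exact h3.trans (by have := Real.exp_one_lt_d9; linarith)
    have : Real.exp (0 ^ 2 / 2 ^ 2) = 1 := by norm_num
    rw [this]; linarith

theorem sparse_atom : 0 < sparseLaw {0} := by
  unfold sparseLaw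
  simp only [Measure.coe_add, Measure.coe_smul, Pi.add_apply, Pi.smul_apply, smul_eq_mul]
  have : (Measure.dirac (0 : ℝ)) {0} = 1 := by simp
  rw [this, mul_one]
  have h : (0 : ENNReal) < ENNReal.ofReal (1 / 2) := ENNReal.ofReal_pos.2 (by norm_num)
  exact h.trans_le (le_add_of_nonneg_right zero_le)

/-- The conjecture fails for every `ε ∈ (0,1)` and every `K > 0`, and for all degrees of at least
linear growth: there is an admissible law `ν` of the coordinates such that, with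
`m = ⌊(1-ε) n^d⌋`, the probability that `σ_min > 0` tends to `0` for every choice of degrees
`d(n) ≥ 1` with `d(n) ≥ c n` for large `n`, and such degrees exist with `d(n) ≤ K n`. -/
theorem result : ∃ (ν : Measure ℝ) (L : ℝ), Admissible ν L ∧
    ∀ ε : ℝ, 0 < ε → ε < 1 →
      (∀ d : ℕ → ℕ, (∀ n, 1 ≤ d n) → (∃ c : ℝ, 0 < c ∧ ∀ᶠ n : ℕ in atTop, c * n ≤ d n) →
        Tendsto (fun n : ℕ => sampleLaw ν n (d n) ⌊(1 - ε) * (n : ℝ) ^ (d n)⌋₊
          {ω | 0 < sigmaMin (tensorMatrix ω)}) atTop (𝓝 0)) ∧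
      (∀ K : ℝ, 0 < K → ∃ d : ℕ → ℕ, (∀ n, 1 ≤ d n) ∧ (∀ᶠ n : ℕ in atTop, (d n : ℝ) ≤ K * n) ∧
        Tendsto (fun n : ℕ => sampleLaw ν n (d n) ⌊(1 - ε) * (n : ℝ) ^ (d n)⌋₊
          {ω | √ε / 2 ≤ sigmaMin (tensorMatrix ω)}) atTop (𝓝 0)) := by
  refine ⟨sparseLaw, 2, sparse_admissible, fun ε hε0 hε1 => ?_⟩
  have := sparse_admissible.prob
  have main : ∀ d : ℕ → ℕ, (∀ n, 1 ≤ d n) →
      (∃ c : ℝ, 0 < c ∧ ∀ᶠ n : ℕ in atTop, c * n ≤ d n) →
        Tendsto (fun n : ℕ => sampleLaw sparseLaw n (d n) ⌊(1 - ε) * (n : ℝ) ^ (d n)⌋₊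
          {ω | 0 < sigmaMin (tensorMatrix ω)}) atTop (𝓝 0) := by
    rintro d hd ⟨c, hc, hcd⟩
    exact prob_tendsto sparseLaw sparse_atom ε hε1 c hc d hd hcd
  refine ⟨main, fun K hK => ?_⟩
  refine ⟨fun n => max 1 ⌊K * n⌋₊, fun n => le_max_left _ _, ?_, ?_⟩
  · have t : Tendsto (fun n : ℕ => K * (n : ℝ)) atTop atTop :=
      tendsto_natCast_atTop_atTop.const_mul_atTop hK
    filter_upwards [t.eventually_ge_atTop 1] with n hn
    push_cast
    refine max_le hn ?_
    exact Nat.floor_le (by positivity)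
  · have h := main (fun n => max 1 ⌊K * n⌋₊) (fun n => le_max_left _ _) ⟨K / 2, by positivity, ?_⟩
    · refine tendsto_of_tendsto_of_tendsto_of_le_of_le tendsto_const_nhds h
        (fun n => zero_le) (fun n => measure_mono ?_)
      intro ω hω
      have : 0 < √ε / 2 := by positivity
      exact this.trans_le hω
    · have t : Tendsto (fun n : ℕ => K / 2 * (n : ℝ)) atTop atTop :=
        tendsto_natCast_atTop_atTop.const_mul_atTop (by positivity)
      filter_upwards [t.eventually_ge_atTop 1] with n hn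
      have h1 : K * n - 1 < (⌊K * (n : ℝ)⌋₊ : ℝ) := Nat.sub_one_lt_floor _
      have h2 : (⌊K * (n : ℝ)⌋₊ : ℝ) ≤ ((max 1 ⌊K * (n : ℝ)⌋₊ : ℕ) : ℝ) := by
        exact_mod_cast le_max_right _ _
      linarith

end Pool.Agent.Results.MP_2a72d7_pr.AtomAtZero
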